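import Pool.Agent.H44.KWConvex

open MeasureTheory Pool.Agent.H44.KW

namespace Pool.Agent.Results.MP_a2bed5_pr.Convex

/-- The mean stationary workloads of a GI/GI/k queue form a convex sequence. Expectations of the
nonnegative workloads are taken in `[0, ∞]`. -/
theorem result (k : ℕ) (μS μT : Measure ℝ) [IsProbabilityMeasure μS] [IsProbabilityMeasure μT]
    (hS : ∀ᵐ s ∂μS, 0 ≤ s) (hT : ∀ᵐ t ∂μT, 0 ≤ t)
    (hi : Integrable id μT) (hpos : 0 < ∫ t, t ∂μT)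
    (π : Measure (Fin k → ℝ)) (hπ : IsStationary μS μT π)
    (a b c : Fin k) (hab : (a : ℕ) + 1 = b) (hbc : (b : ℕ) + 1 = c) :
    2 * ∫⁻ w, ENNReal.ofReal (w b) ∂π ≤
      ∫⁻ w, ENNReal.ofReal (w a) ∂π + ∫⁻ w, ENNReal.ofReal (w c) ∂π :=
  convex_lintegral hπ hS hT hi hpos hab hbc

end Pool.Agent.Results.MP_a2bed5_pr.Convex
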